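import Pool.Agent.H78.Grammic

namespace Pool.Agent.Results.MP_2928c2_al.NoFinite

open Pool.Agent.H78.Grammic

/-- For every rank `n ≥ 2` and every finite monoid `F`, the variety of the grammic monoid of rank `n` is
neither `var F` nor `var F ∨ Com`. -/
theorem result (n : ℕ) (hn : 2 ≤ n) (F : Type) [Monoid F] [Finite F] :
    var (G n) ≠ var F ∧ var (G n) ≠ join (var F) Com :=
  main n hn F

end Pool.Agent.Results.MP_2928c2_al.NoFinite
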